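import Mathlib

set_option autoImplicit false

namespace Pool.Agent.Results.MP_a93e77_co.KotzigDisproof

/-- `P` is an isomorphism-permutation of `G`: an isomorphism from `G` onto its complement. -/
def IsIsoPerm {V : Type} (G : SimpleGraph V) (P : Equiv.Perm V) : Prop :=
  ∀ u v : V, u ≠ v → (G.Adj u v ↔ ¬ G.Adj (P u) (P v))

/-- `F(G)`: the vertices fixed by at least one isomorphism-permutation. -/
def fixedVertices {V : Type} (G : SimpleGraph V) : Set V :=
  {v | ∃ P : Equiv.Perm V, IsIsoPerm G P ∧ P v = v}

/-- `N(G)`: the edges whose ends are consecutive in a cycle of some isomorphism-permutation. -/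
def consecutiveEdges {V : Type} (G : SimpleGraph V) : Set (Sym2 V) :=
  {e | e ∈ G.edgeSet ∧ ∃ P : Equiv.Perm V, IsIsoPerm G P ∧ ∃ u v : V, e = s(u, v) ∧ P u = v}

/-- Strongly regular: every edge lies in the same number of triangles, and every two distinct
nonadjacent vertices have the same number of common neighbours. -/
def StronglyRegular {V : Type} [Fintype V] [DecidableEq V] (G : SimpleGraph V)
    [DecidableRel G.Adj] : Prop :=
  (∃ d : ℕ, G.IsRegularOfDegree d) ∧
  (∃ l : ℕ, ∀ u v : V, G.Adj u v → Fintype.card (G.commonNeighbors u v) = l) ∧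
  (∃ m : ℕ, ∀ u v : V, u ≠ v → ¬ G.Adj u v → Fintype.card (G.commonNeighbors u v) = m)

/-- The connection set `{±1, ±2, ±4}` in `ZMod 13`. -/
def conn : Finset (ZMod 13) := {1, 2, 4, 9, 11, 12}

/-- The circulant graph `C₁₃(1,2,4)`. -/
def circ : SimpleGraph (ZMod 13) where
  Adj u v := u - v ∈ conn
  symm := ⟨by decide⟩
  loopless := ⟨by decide⟩

instance : DecidableRel circ.Adj := fun u v => inferInstanceAs (Decidable (u - v ∈ conn))

/-- The affine permutation `x ↦ 8 (x - a) + b` of `ZMod 13`. -/
def aff (a b : ZMod 13) : Equiv.Perm (ZMod 13) where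
  toFun x := 8 * (x - a) + b
  invFun x := 5 * (x - b) + a
  left_inv x := by
    have h : (5 * 8 : ZMod 13) = 1 := by decide
    linear_combination (x - a) * h
  right_inv x := by
    have h : (8 * 5 : ZMod 13) = 1 := by decide
    linear_combination (x - b) * h

lemma conn_key : ∀ d : ZMod 13, d ≠ 0 → (d ∈ conn ↔ ¬ 8 * d ∈ conn) := by decide

lemma aff_iso (a b : ZMod 13) : IsIsoPerm circ (aff a b) := by
  intro u v huv
  have h : aff a b u - aff a b v = 8 * (u - v) := by
    change (8 * (u - a) + b) - (8 * (v - a) + b) = 8 * (u - v)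
    ring
  change u - v ∈ conn ↔ ¬ (aff a b u - aff a b v ∈ conn)
  rw [h]
  exact conn_key (u - v) (sub_ne_zero.mpr huv)

lemma aff_apply (a b : ZMod 13) : aff a b a = b := by
  change 8 * (a - a) + b = b
  ring

lemma circ_regular : circ.IsRegularOfDegree 6 := by
  intro v
  revert v
  decide

lemma circ_not_srg : ¬ StronglyRegular circ := by
  rintro ⟨-, ⟨l, hl⟩, -⟩
  have h1 := hl 0 1 (by decide)
  have h2 := hl 0 2 (by decide)
  have h3 : Fintype.card (circ.commonNeighbors 0 1) = 2 := by decide
  have h4 : Fintype.card (circ.commonNeighbors 0 2) = 3 := by decide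
  omega

lemma circ_fixed : fixedVertices circ = Set.univ := by
  ext v
  simp only [Set.mem_univ, iff_true]
  exact ⟨aff v v, aff_iso v v, aff_apply v v⟩

lemma circ_consecutive : consecutiveEdges circ = circ.edgeSet := by
  ext e
  constructor
  · rintro ⟨h, -⟩
    exact h
  · intro h
    induction e using Sym2.ind with
    | h u v => exact ⟨h, aff u v, aff_iso u v, u, v, rfl, aff_apply u v⟩

/-- The characterisation of strongly regular graphs among regular self-complementary graphs by
`F(G) = V(G)` and `N(G) = E(G)` is false. -/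
theorem result :
    ¬ ∀ (V : Type) [Fintype V] [DecidableEq V] (G : SimpleGraph V) [DecidableRel G.Adj],
      (∃ d : ℕ, G.IsRegularOfDegree d) → Nonempty (G ≃g Gᶜ) →
        (StronglyRegular G ↔
          (fixedVertices G = Set.univ ∧ consecutiveEdges G = G.edgeSet)) := by
  intro H
  have hsc : Nonempty (circ ≃g circᶜ) := by
    refine ⟨⟨aff 0 0, ?_⟩⟩
    intro u v
    rw [SimpleGraph.compl_adj]
    by_cases huv : u = v
    · subst huv
      simp
    · have h := aff_iso 0 0 u v huv
      have h' : aff 0 0 u ≠ aff 0 0 v := fun h => huv ((aff 0 0).injective h)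
      constructor
      · rintro ⟨-, h2⟩
        exact h.mpr h2
      · intro h2
        exact ⟨h', h.mp h2⟩
  exact circ_not_srg ((H (ZMod 13) circ ⟨6, circ_regular⟩ hsc).mpr ⟨circ_fixed, circ_consecutive⟩)

end Pool.Agent.Results.MP_a93e77_co.KotzigDisproof
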